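import Pool.Agent.helper8.MC.Flat

/-!
# MC (MP_56b5c1): the preferred charts of the quotient manifold

`Quo`-free version: everything is stated for `MulAction.orbitRel.Quotient G Ω` with the projection
`Quotient.mk''`.
-/

open scoped Manifold ContDiff Topology

noncomputable section

namespace Pool.Agent.helper91.MC

open Pool.Agent.helper8.MC

instance instLC' {m : ℕ} (Ω : TopologicalSpace.Opens (Eu m)) : LocallyCompactSpace Ω :=
  Ω.isOpen.locallyCompactSpace

variable {m : ℕ} {G : Type} [Group G] {Ω : TopologicalSpace.Opens (Eu m)} [MulAction G Ω]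
  [ProperlyDiscontinuousSMul G Ω] [ContinuousConstSMul G Ω] [IsCancelSMul G Ω]

/-- The shape of the preferred charts. -/
theorem chartAt_quo (x : MulAction.orbitRel.Quotient G Ω) :
    ∃ (hl : IsLocalHomeomorph (Quotient.mk'' : Ω → MulAction.orbitRel.Quotient G Ω)) (z : Ω),
      (Quotient.mk'' z : MulAction.orbitRel.Quotient G Ω) = x ∧
      chartAt (Eu m) x = (hl.localInverseAt z).trans (chartAt (Eu m) z) := by
  have hl : IsLocalHomeomorph (Quotient.mk'' : Ω → MulAction.orbitRel.Quotient G Ω) :=
    isQuotientCoveringMap_quotientMk_of_properlyDiscontinuousSMul.isCoveringMap.isLocalHomeomorph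
  have hs : Function.Surjective (Quotient.mk'' : Ω → MulAction.orbitRel.Quotient G Ω) :=
    Quotient.mk''_surjective
  exact ⟨hl, hs.hasRightInverse.choose x, hs.hasRightInverse.choose_spec x, rfl⟩

theorem chart_coe (z : Ω) (w : Ω) : chartAt (Eu m) z w = (w : Eu m) := rfl

theorem chart_coe_symm (z : Ω) {w : Eu m} (hw : w ∈ Ω) :
    (chartAt (Eu m) z).symm w = ⟨w, hw⟩ := by
  have h1 : (⟨w, hw⟩ : Ω) ∈ (chartAt (Eu m) z).source := by
    rw [TopologicalSpace.Opens.chartAt_eq, OpenPartialHomeomorph.subtypeRestr_source,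
      chartAt_self_eq]
    trivial
  have h2 := (chartAt (Eu m) z).left_inv h1
  exact h2

/-- The inverse of the preferred chart at any point is the projection, on the whole of `Ω`. -/
theorem chart_symm (x : MulAction.orbitRel.Quotient G Ω) :
    ∃ z : Ω, (Quotient.mk'' z : MulAction.orbitRel.Quotient G Ω) = x ∧
      extChartAt (𝓡 m) x x = (z : Eu m) ∧
      ∀ (w : Eu m) (hw : w ∈ Ω), (extChartAt (𝓡 m) x).symm w
        = (Quotient.mk'' (⟨w, hw⟩ : Ω) : MulAction.orbitRel.Quotient G Ω) := by
  obtain ⟨hl, z, hz, hc⟩ := chartAt_quo x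
  refine ⟨z, hz, ?_, ?_⟩
  · rw [extChartAt, hc]
    show chartAt (Eu m) z (hl.localInverseAt z x) = z
    rw [← hz, hl.localInverseAt_apply_self, chart_coe]
  · intro w hw
    rw [extChartAt, hc]
    show (hl.localInverseAt z).symm ((chartAt (Eu m) z).symm w) = _
    rw [chart_coe_symm z hw, hl.localInverseAt_symm]

end Pool.Agent.helper91.MC
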