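import Pool.Agent.helper91.MC.DataMk
import Pool.Agent.helper98.MC.Polar

/-!
# MC (MP_56b5c1): the data from the codimension-one immersion `f1` and the tube map `F0`
-/

open scoped Manifold ContDiff Topology ENNReal NNReal

noncomputable section

namespace Pool.Agent.helper8.MC.Glue

open Pool.Agent.helper8.MC

/-- The data from: `f1` = the codimension-one immersion, `F0` = the tube map (degree zero) with
values in a space of dimension `m`. -/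
theorem data_of_core {n k : ℕ} (hn : 0 < n) (hk : Even k)
    (f1 : PS n (Eu (n + 1)) (Eu k) (Eu (n + 1)) → Eu (k + 3 * n + 2 + 1))
    (s1 : ContDiffOn ℝ ∞ f1 (gamOpen n (Eu (n + 1)) (Eu k) (Eu (n + 1))))
    (i1 : ∀ x ∈ gamOpen n (Eu (n + 1)) (Eu k) (Eu (n + 1)), ∀ u, fderiv ℝ f1 x u = 0 → u = 0)
    (v1 : ∀ γ : Gam n, ∀ x ∈ gamOpen n (Eu (n + 1)) (Eu k) (Eu (n + 1)),
      f1 (gamAct γ x) = f1 x)
    (F0 : PS n (Eu (n + 1)) (Eu k) (Eu (n + 1)) → Eu (k + 3 * n + 2))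
    (Fs : ContDiffOn ℝ ∞ F0 (gamOpen n (Eu (n + 1)) (Eu k) (Eu (n + 1))))
    (FB : ∀ x ∈ gamOpen n (Eu (n + 1)) (Eu k) (Eu (n + 1)), ‖F0 x‖ ≤ √(2 * n) + 1)
    (Fker : ∀ x ∈ gamOpen n (Eu (n + 1)) (Eu k) (Eu (n + 1)), ∀ u, fderiv ℝ F0 x u = 0 →
      fderiv ℝ al x u = 0 → fderiv ℝ be x u = 0 → u = 0)
    (Fr1 : ∀ x ∈ gamOpen n (Eu (n + 1)) (Eu k) (Eu (n + 1)), fderiv ℝ F0 x (x.1, 0, 0) = 0)
    (Fr2 : ∀ x ∈ gamOpen n (Eu (n + 1)) (Eu k) (Eu (n + 1)), fderiv ℝ F0 x (0, 0, x.2.2) = 0)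
    (Finv : ∀ γ : Gam n, ∀ x ∈ gamOpen n (Eu (n + 1)) (Eu k) (Eu (n + 1)),
      F0 (gamAct γ x) = F0 x)
    {cc : ℝ} (hcc : 1 ≤ cc) (Fcurv : GCurvLE (gamOpen n (Eu (n + 1)) (Eu k) (Eu (n + 1))) F0 cc) :
    Nonempty (Data n (5 * cc)) := by
  -- dimensions
  have hm : Module.finrank ℝ (PS n (Eu (n + 1)) (Eu k) (Eu (n + 1))) = k + 3 * n + 2 := by
    show Module.finrank ℝ (Eu (n + 1) × Eu n × Eu k × Eu (n + 1)) = _
    rw [Module.finrank_prod, Module.finrank_prod, Module.finrank_prod, finrank_euclideanSpace_fin,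
      finrank_euclideanSpace_fin, finrank_euclideanSpace_fin]
    ring
  have hodd : Odd (Module.finrank ℝ (Eu (n + 1)) + n + Module.finrank ℝ (Eu k)) := by
    rw [finrank_euclideanSpace_fin, finrank_euclideanSpace_fin]
    obtain ⟨r, hr⟩ := hk
    exact ⟨n + r, by omega⟩
  have hZ : 1 < Module.finrank ℝ (Eu (n + 1)) := by
    rw [finrank_euclideanSpace_fin]
    omega
  have hz0 : (EuclideanSpace.single (0 : Fin (n + 1)) (1 : ℝ) : Eu (n + 1)) ≠ 0 := by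
    intro h
    have h1 := congrArg (fun w : Eu (n + 1) => w 0) h
    simp at h1
  -- the two maps
  have h4 := exists_two_circles (isOpen_gamOpen) Fs contDiffOn_al contDiffOn_be hcc Fcurv
    (fun x hx => ⟨(x.1, 0, 0), Fr1 x hx, (radial_fst hx).1⟩)
    (fun x hx => ⟨(0, 0, x.2.2), Fr2 x hx, (radial_snd hx).1, (radial_snd hx).2.1⟩)
  rw [finrank_euclideanSpace_fin] at h4
  obtain ⟨G4, s4, c4, k4, n4, v4⟩ := h4
  have hn1 : (1 : ℝ) ≤ n := by exact_mod_cast hn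
  have hsn : (1 : ℝ) ≤ √n := by
    rw [Real.one_le_sqrt]
    exact hn1
  have h2n : √(2 * (n : ℝ)) ≤ 2 * √n := by
    rw [Real.sqrt_le_left (by positivity), mul_pow, Real.sq_sqrt (by positivity)]
    linarith
  have hR : 0 < √(2 * (n : ℝ)) + 3 := by positivity
  refine data_of_maps (m := k + 3 * n + 2) (R := √(2 * (n : ℝ)) + 3) (c4 := cc) hn hZ
    hm hodd hz0 f1 s1 i1 v1 G4 s4 ?_ ?_ hR ?_ (by linarith) c4 ?_
  · intro x hx u hu
    obtain ⟨h1, h2, h3⟩ := k4 x hx u hu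
    exact Fker x hx u h1 h2 h3
  · intro γ x hx
    exact v4 _ _ (Finv γ x hx) (cos_al_gamAct γ hx) (sin_al_gamAct γ hx) (cos_be_gamAct γ hx)
      (sin_be_gamAct γ hx)
  · intro x hx
    have h1 := n4 x
    have h2 := FB x hx
    have h3 : ‖F0 x‖ ^ 2 ≤ (√(2 * (n : ℝ)) + 1) ^ 2 := pow_le_pow_left₀ (norm_nonneg _) h2 2
    have h5 : 0 ≤ √(2 * (n : ℝ)) := Real.sqrt_nonneg _
    apply le_of_sq_le_sq _ hR.le
    rw [h1]
    nlinarith
  · have h1 : √(2 * (n : ℝ)) + 3 ≤ 5 * √n := by linarith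
    calc (√(2 * (n : ℝ)) + 3) * cc ≤ 5 * √n * cc := by gcongr
      _ = 5 * cc * √n := by ring

end Pool.Agent.helper8.MC.Glue
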