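import Pool.Agent.helper91.MC.Glue
import Pool.Agent.helper98.MC.Gam
import Pool.Agent.helper98.MC.Susp

/-!
# MC (MP_56b5c1): the data from the two concrete maps on the product space
-/

open scoped Manifold ContDiff Topology ENNReal NNReal

noncomputable section

namespace Pool.Agent.helper8.MC.Glue

open Pool.Agent.helper8.MC

variable {n : ℕ} {W Z : Type} [NormedAddCommGroup W] [NormedSpace ℝ W] [NormedAddCommGroup Z]
  [NormedSpace ℝ Z] [FiniteDimensional ℝ W] [FiniteDimensional ℝ Z]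

omit [FiniteDimensional ℝ W] [FiniteDimensional ℝ Z] in
theorem isConnected_gamOpen (hn : 0 < n) (hZ : 1 < Module.finrank ℝ Z) :
    IsConnected (gamOpen n (Eu (n + 1)) W Z) := by
  have h1 : IsConnected ({0}ᶜ : Set (Eu (n + 1))) := by
    apply isConnected_compl_singleton_of_one_lt_rank
    rw [← Module.finrank_eq_rank, finrank_euclideanSpace_fin]
    exact_mod_cast (by omega : 1 < n + 1)
  have h2 : IsConnected ({0}ᶜ : Set (W × Z)) := by
    apply isConnected_compl_singleton_of_one_lt_rank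
    have h3 : (1 : Cardinal) < Module.rank ℝ Z := by
      exact Module.one_lt_rank_of_one_lt_finrank hZ
    refine lt_of_lt_of_le h3 ?_
    rw [rank_prod']
    exact le_add_self
  have h3 : gamOpen n (Eu (n + 1)) W Z
      = ({0}ᶜ : Set (Eu (n + 1))) ×ˢ ((Set.univ : Set (Eu n)) ×ˢ ({0}ᶜ : Set (W × Z))) := by
    ext p
    simp [gamOpen]
  rw [h3]
  exact h1.prod (isConnected_univ.prod h2)

theorem data_of_maps {m : ℕ} {c : ℝ} (hn : 0 < n) (hZ : 1 < Module.finrank ℝ Z)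
    (hm : Module.finrank ℝ (PS n (Eu (n + 1)) W Z) = m)
    (hodd : Odd (Module.finrank ℝ (Eu (n + 1)) + n + Module.finrank ℝ W))
    {z0 : Z} (hz0 : z0 ≠ 0)
    (f1 : PS n (Eu (n + 1)) W Z → Eu (m + 1))
    (s1 : ContDiffOn ℝ ∞ f1 (gamOpen n (Eu (n + 1)) W Z))
    (i1 : ∀ x ∈ gamOpen n (Eu (n + 1)) W Z, ∀ u, fderiv ℝ f1 x u = 0 → u = 0)
    (v1 : ∀ (g : Gam n), ∀ x ∈ gamOpen n (Eu (n + 1)) W Z, f1 (gamAct g x) = f1 x)
    (f4 : PS n (Eu (n + 1)) W Z → Eu (m + 4))
    (s4 : ContDiffOn ℝ ∞ f4 (gamOpen n (Eu (n + 1)) W Z))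
    (i4 : ∀ x ∈ gamOpen n (Eu (n + 1)) W Z, ∀ u, fderiv ℝ f4 x u = 0 → u = 0)
    (v4 : ∀ (g : Gam n), ∀ x ∈ gamOpen n (Eu (n + 1)) W Z, f4 (gamAct g x) = f4 x)
    {R c4 : ℝ} (hR : 0 < R) (hball : ∀ x ∈ gamOpen n (Eu (n + 1)) W Z, ‖f4 x‖ ≤ R)
    (hc4 : 0 ≤ c4) (hcurv : GCurvLE (gamOpen n (Eu (n + 1)) W Z) f4 c4)
    (hbound : R * c4 ≤ c * √n) : Nonempty (Data n c) := by
  have hE : Module.finrank ℝ (PS n (Eu (n + 1)) W Z) = Module.finrank ℝ (Eu m) := by
    rw [hm, finrank_euclideanSpace_fin]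
  obtain ⟨L⟩ : Nonempty (PS n (Eu (n + 1)) W Z ≃L[ℝ] Eu m) := ⟨ContinuousLinearEquiv.ofFinrankEq hE⟩
  have hΩ : ∀ z ∈ gamΩ L, L.symm z ∈ gamOpen n (Eu (n + 1)) W Z := fun z hz => hz
  refine ⟨{
    m := m
    G := Gam n
    instG := inferInstance
    Ω := gamΩ L
    instA := inferInstance
    instP := inferInstance
    instC := inferInstance
    instS := inferInstance
    a := gamAff L
    K := gamKΩ L
    hK := isCompact_gamKΩ L
    hKΩ := gamKΩ_subset L
    hconn := ?_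
    hcov := gamKΩ_cover L
    τ := Gam.tau n
    hτ := det_tau L hodd
    ι := fun y => L (y, 0, 0, z0)
    hι := by fun_prop
    hιΩ := ?_
    hιodd := ?_
    F1 := f1 ∘ L.symm
    hF1 := flatImm_comp_symm L s1 i1 hΩ
    inv1 := ?_
    F4 := f4 ∘ L.symm
    hF4 := flatImm_comp_symm L s4 i4 hΩ
    inv4 := ?_
    R := R
    R0 := hR
    ball4 := fun z hz => hball _ (hΩ z hz)
    c4 := c4
    curv4 := curvLE_comp_symm L hc4 hcurv hΩ
    bound := hbound }⟩
  · have h1 := (isConnected_gamOpen (n := n) (W := W) (Z := Z) hn hZ).image L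
      L.continuous.continuousOn
    have h2 : ((gamΩ L : TopologicalSpace.Opens (Eu m)) : Set (Eu m))
        = L '' gamOpen n (Eu (n + 1)) W Z := by
      rw [ContinuousLinearEquiv.image_eq_preimage_symm]
      rfl
    rw [h2]
    exact h1
  · intro y hy
    rw [mem_gamΩ, L.symm_apply_apply]
    refine ⟨hy, ?_⟩
    intro h
    exact hz0 (congrArg Prod.snd h)
  · intro y hy
    have h1 := gamAct_tau (n := n) ((y, 0, 0, z0) : PS n (Eu (n + 1)) W Z)
    simp only [neg_zero] at h1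
    rw [← h1]
    unfold gamAct
    rw [map_add]
    show _ = L (gamLin (Eu (n + 1)) W Z (Gam.tau n) (L.symm (L (y, 0, 0, z0)))) + _
    rw [L.symm_apply_apply]
    rfl
  · intro g x
    rw [gam_smul_coe, Function.comp_apply, Function.comp_apply, L.symm_apply_apply]
    exact v1 g _ (hΩ _ x.2)
  · intro g x
    rw [gam_smul_coe, Function.comp_apply, Function.comp_apply, L.symm_apply_apply]
    exact v4 g _ (hΩ _ x.2)

end Pool.Agent.helper8.MC.Glue
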