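import Pool.Agent.helper98.MC.Gam

/-!
# MC (MP_56b5c1): the concrete spaces and their dimensions
-/

open scoped Manifold ContDiff Topology InnerProductSpace

noncomputable section

namespace Pool.Agent.helper8.MC.Dims

open Pool.Agent.helper8.MC

/-- the index type of the blocks -/
abbrev Ix (n : ℕ) : Type := Fin (n + 1) ⊕ Fin (n + 1)

/-- the sign-changing part of the fibre variable -/
abbrev WW (n : ℕ) {d : ℕ} (s0 : Eu d) : Type := PiLp 2 (fun _ : Ix n => (ℝ ∙ s0)ᗮ)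

/-- the remaining part of the fibre variable -/
abbrev ZZ (n : ℕ) : Type := WithLp 2 (ℝ × Eu n)

/-- the target space -/
abbrev HH (n d : ℕ) : Type := WithLp 2 (PiLp 2 (fun _ : Ix n => Eu d) × Eu n)

theorem finrank_orth {d : ℕ} {s0 : Eu d} (hs : ‖s0‖ = 1) :
    Module.finrank ℝ (ℝ ∙ s0)ᗮ + 1 = d := by
  have h1 := Submodule.finrank_add_finrank_orthogonal (ℝ ∙ s0)
  have h2 : s0 ≠ 0 := by
    intro h
    rw [h, norm_zero] at hs
    exact zero_ne_one hs
  rw [finrank_span_singleton h2, finrank_euclideanSpace_fin] at h1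
  omega

theorem finrank_WW (n : ℕ) {d : ℕ} (s0 : Eu d) :
    Module.finrank ℝ (WW n s0) = (2 * (n + 1)) * Module.finrank ℝ (ℝ ∙ s0)ᗮ := by
  have h1 : Module.finrank ℝ (WW n s0) = Module.finrank ℝ (∀ _ : Ix n, (ℝ ∙ s0)ᗮ) :=
    (WithLp.linearEquiv 2 ℝ (∀ _ : Ix n, (ℝ ∙ s0)ᗮ)).finrank_eq
  rw [h1, Module.finrank_pi_fintype, Finset.sum_const, Finset.card_univ, Fintype.card_sum,
    Fintype.card_fin, smul_eq_mul]
  ring

theorem finrank_ZZ (n : ℕ) : Module.finrank ℝ (ZZ n) = n + 1 := by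
  have h1 : Module.finrank ℝ (ZZ n) = Module.finrank ℝ (ℝ × Eu n) :=
    (WithLp.linearEquiv 2 ℝ (ℝ × Eu n)).finrank_eq
  rw [h1, Module.finrank_prod, finrank_euclideanSpace_fin, Module.finrank_self]
  ring

theorem finrank_HH (n d : ℕ) : Module.finrank ℝ (HH n d) = (2 * (n + 1)) * d + n := by
  have h1 : Module.finrank ℝ (HH n d) = Module.finrank ℝ (PiLp 2 (fun _ : Ix n => Eu d) × Eu n) :=
    (WithLp.linearEquiv 2 ℝ _).finrank_eq
  have h2 : Module.finrank ℝ (PiLp 2 (fun _ : Ix n => Eu d)) = Module.finrank ℝ (Ix n → Eu d) :=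
    (WithLp.linearEquiv 2 ℝ (Ix n → Eu d)).finrank_eq
  rw [h1, Module.finrank_prod, h2, Module.finrank_pi_fintype, Finset.sum_const, Finset.card_univ,
    Fintype.card_sum, Fintype.card_fin, smul_eq_mul, finrank_euclideanSpace_fin,
    finrank_euclideanSpace_fin]
  ring

theorem odd_dims (n : ℕ) {d : ℕ} (s0 : Eu d) :
    Odd (Module.finrank ℝ (Eu (n + 1)) + n + Module.finrank ℝ (WW n s0)) := by
  rw [finrank_WW, finrank_euclideanSpace_fin]
  refine ⟨n + (n + 1) * Module.finrank ℝ (ℝ ∙ s0)ᗮ, ?_⟩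
  ring

theorem finrank_PS (n : ℕ) {d : ℕ} {s0 : Eu d} (hs : ‖s0‖ = 1) :
    Module.finrank ℝ (PS n (Eu (n + 1)) (WW n s0) (ZZ n)) = Module.finrank ℝ (HH n d) := by
  have h0 := finrank_orth hs
  rw [finrank_HH]
  show Module.finrank ℝ (Eu (n + 1) × Eu n × WW n s0 × ZZ n) = _
  rw [Module.finrank_prod, Module.finrank_prod, Module.finrank_prod, finrank_WW, finrank_ZZ,
    finrank_euclideanSpace_fin, finrank_euclideanSpace_fin]
  obtain ⟨k, hk⟩ : ∃ k, Module.finrank ℝ (ℝ ∙ s0)ᗮ = k := ⟨_, rfl⟩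
  rw [hk] at h0 ⊢
  rw [← h0]
  ring

theorem finrank_orth_HH (n d : ℕ) {D1 : HH n d} (hD : D1 ≠ 0) :
    Module.finrank ℝ (ℝ ∙ D1)ᗮ + 1 = Module.finrank ℝ (HH n d) := by
  have h1 := Submodule.finrank_add_finrank_orthogonal (ℝ ∙ D1)
  rw [finrank_span_singleton hD] at h1
  omega

/-- a nonzero vector of the last factor -/
theorem exists_z0 (n : ℕ) : ∃ z0 : ZZ n, z0 ≠ 0 := by
  refine ⟨WithLp.toLp 2 (1, 0), ?_⟩
  intro h
  have h1 := congrArg (fun z : ZZ n => z.fst) h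
  simp at h1

end Pool.Agent.helper8.MC.Dims
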