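import Pool.Agent.helper91.MC.Core2
import Pool.Agent.helper98.MC.G0
import Pool.Agent.helper8.MC.CInst
import Pool.Agent.helper7.MC.F0Curv
import Pool.Agent.helper72.MC2.Inst

/-!
# MC (MP_56b5c1): the data exist for every `n`
-/

open scoped Manifold ContDiff Topology ENNReal NNReal

noncomputable section

namespace Pool.Agent.helper8.MC.Glue

open Pool.Agent.helper8.MC Pool.Agent.helper7.MC Pool.Agent.helper72.MC2

theorem data_exists : ∃ c : ℝ, ∀ n : ℕ, 0 < n → Nonempty (Data n c) := by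
  refine ⟨5 * 662, fun n hn => ?_⟩
  obtain ⟨d, k, hk, ⟨D⟩⟩ := exists_CDat n
  obtain ⟨f1, s1, i1, v1⟩ := exists_F1 D
  have hT := thData D
  exact data_of_core hn hk f1 s1 i1 v1 (F0 (ofC D) D.j (Th D))
    (F0_contDiffOn (ofC D) D.j (Th D) hT)
    (fun x hx => F0_norm_le (ofC D) D.j (Th D) D.inner_j hT hx)
    (fun x hx u h0 h1 h2 => F0_ker (ofC D) D.j (Th D) hn D.inner_j hT hx u h0 h1 h2)
    (fun x hx => F0_radial1 (ofC D) D.j (Th D) hT hx)
    (fun x hx => F0_radial2 (ofC D) D.j (Th D) hT hx)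
    (fun γ x _ => F0_act (ofC D) D.j (Th D) (Phi_act_ofC D) hT γ x)
    (by norm_num) (F0_curv (ofC D) D.j (Th D) hn D.inner_j hT)

end Pool.Agent.helper8.MC.Glue
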