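import Pool.Agent.helper8.MC.Quot2
import Pool.Agent.helper8.MC.LowerGlue
import Pool.Agent.helper8.MC.One

/-!
# MC (MP_56b5c1): the part of the final assembly that does not need the concrete maps
-/

open scoped Manifold ContDiff Topology ENNReal NNReal

noncomputable section

namespace Pool.Agent.helper8.MC.Glue

open Pool.Agent.helper8.MC Pool.Agent.helper8.MC.Q2

theorem minCurv_le {m N : ℕ} {X : Type*} [TopologicalSpace X] [ChartedSpace (Eu m) X]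
    (f : X → Eu N) (hf : IsImm m f) (hball : ∀ x, ‖f x‖ ≤ 1) : minCurv m X N ≤ curv m f := by
  unfold minCurv
  exact iInf_le_of_le f (iInf_le_of_le hf (iInf_le _ hball))

section flat

variable {m N : ℕ} {Ω : TopologicalSpace.Opens (Eu m)}

theorem FlatImm.congr {g g' : Eu m → Eu N} (h : FlatImm g (Ω : Set (Eu m)))
    (hgg : ∀ z ∈ Ω, g' z = g z) : FlatImm g' (Ω : Set (Eu m)) := by
  refine ⟨h.smooth.congr hgg, fun z hz => ?_⟩
  have h1 : g' =ᶠ[𝓝 z] g := by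
    filter_upwards [Ω.isOpen.mem_nhds hz] with w hw
    exact hgg w hw
  rw [h1.fderiv_eq]
  exact h.inj z hz

theorem CurvLE.congr {g g' : Eu m → Eu N} {c : ℝ} (h : CurvLE g (Ω : Set (Eu m)) c)
    (hgg : ∀ z ∈ Ω, g' z = g z) : CurvLE g' (Ω : Set (Eu m)) c := by
  intro z hz v
  have h0 : ∀ w ∈ Ω, fderiv ℝ g' w = fderiv ℝ g w := by
    intro w hw
    have h1 : g' =ᶠ[𝓝 w] g := by
      filter_upwards [Ω.isOpen.mem_nhds hw] with w' hw'
      exact hgg w' hw'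
    exact h1.fderiv_eq
  have h2 : (fun z' => fderiv ℝ g' z' v) =ᶠ[𝓝 z] fun z' => fderiv ℝ g z' v := by
    filter_upwards [Ω.isOpen.mem_nhds hz] with w hw
    rw [h0 w hw]
  have h3 : nII g' z v = nII g z v := by
    unfold nII
    rw [starProj_congr (by rw [h0 z hz]), h2.fderiv_eq]
  rw [h3, h0 z hz]
  exact h z hz v

theorem fderiv_smul_const' {g : Eu m → Eu N} {r : ℝ} {z : Eu m} (hg : DifferentiableAt ℝ g z) :
    fderiv ℝ (fun w => r • g w) z = r • fderiv ℝ g z :=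
  (hg.hasFDerivAt.const_smul r).fderiv

theorem FlatImm.smul {g : Eu m → Eu N} (h : FlatImm g (Ω : Set (Eu m))) {r : ℝ} (hr : r ≠ 0) :
    FlatImm (fun z => r • g z) (Ω : Set (Eu m)) := by
  refine ⟨h.smooth.const_smul r, fun z hz => ?_⟩
  have h1 : DifferentiableAt ℝ g z :=
    ((h.smooth z hz).contDiffAt (Ω.isOpen.mem_nhds hz)).differentiableAt (by norm_num)
  rw [fderiv_smul_const' h1]
  intro v w hvw
  have h2 : r • fderiv ℝ g z v = r • fderiv ℝ g z w := hvw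
  exact h.inj z hz (smul_right_injective _ hr h2)

theorem CurvLE.smul {g : Eu m → Eu N} (h : FlatImm g (Ω : Set (Eu m))) {c : ℝ}
    (hc : CurvLE g (Ω : Set (Eu m)) c) {R : ℝ} (hR : 0 < R) :
    CurvLE (fun z => R⁻¹ • g z) (Ω : Set (Eu m)) (R * c) := by
  have hd : ∀ z ∈ Ω, ContDiffAt ℝ ∞ g z := fun z hz =>
    (h.smooth z hz).contDiffAt (Ω.isOpen.mem_nhds hz)
  have hD : ∀ z ∈ Ω, fderiv ℝ (fun z => R⁻¹ • g z) z = R⁻¹ • fderiv ℝ g z := fun z hz =>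
    fderiv_smul_const' ((hd z hz).differentiableAt (by norm_num))
  intro z hz v
  have h1 : LinearMap.range (fderiv ℝ (fun z => R⁻¹ • g z) z).toLinearMap
      = LinearMap.range (fderiv ℝ g z).toLinearMap := by
    rw [hD z hz]
    ext y
    constructor
    · rintro ⟨v, rfl⟩
      exact ⟨R⁻¹ • v, by simp⟩
    · rintro ⟨v, rfl⟩
      refine ⟨R • v, ?_⟩
      show R⁻¹ • fderiv ℝ g z (R • v) = fderiv ℝ g z v
      rw [map_smul, smul_smul, inv_mul_cancel₀ hR.ne', one_smul]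
  have h2 : fderiv ℝ (fun z' => fderiv ℝ (fun z => R⁻¹ • g z) z' v) z v
      = R⁻¹ • fderiv ℝ (fun z' => fderiv ℝ g z' v) z v := by
    have h3 : (fun z' => fderiv ℝ (fun z => R⁻¹ • g z) z' v) =ᶠ[𝓝 z]
        fun z' => R⁻¹ • fderiv ℝ g z' v := by
      filter_upwards [Ω.isOpen.mem_nhds hz] with w hw
      rw [hD w hw]
      rfl
    have h4 : DifferentiableAt ℝ (fun z' => fderiv ℝ g z' v) z := by
      have h5 : ContDiffAt ℝ 1 (fun z' => fderiv ℝ g z' v) z :=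
        ((hd z hz).fderiv_right (m := 1) one_add_one_le_inf).clm_apply contDiffAt_const
      exact h5.differentiableAt (by norm_num)
    rw [h3.fderiv_eq, fderiv_smul_const' h4]
    rfl
  have h3 : nII (fun z => R⁻¹ • g z) z v = R⁻¹ • nII g z v := by
    unfold nII
    rw [starProj_congr h1, h2, map_smul]
  rw [h3, hD z hz, norm_smul]
  have h4 : ‖(R⁻¹ • fderiv ℝ g z) v‖ = R⁻¹ * ‖fderiv ℝ g z v‖ := by
    show ‖R⁻¹ • fderiv ℝ g z v‖ = _
    rw [norm_smul, Real.norm_eq_abs, abs_of_pos (inv_pos.2 hR)]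
  rw [h4, Real.norm_eq_abs, abs_of_pos (inv_pos.2 hR)]
  have h5 : R * c * (R⁻¹ * ‖fderiv ℝ g z v‖) ^ 2 = R⁻¹ * (c * ‖fderiv ℝ g z v‖ ^ 2) := by
    field_simp
  rw [h5]
  exact mul_le_mul_of_nonneg_left (hc z hz v) (inv_pos.2 hR).le

/-- The inclusion `ℝᴺ → ℝᴺ⁺¹`. -/
def incl (N : ℕ) : Eu N →ₗ[ℝ] Eu (N + 1) where
  toFun x := WithLp.toLp 2 (Fin.snoc (fun i => x i) 0)
  map_add' x y := by
    ext i
    refine Fin.lastCases ?_ (fun i => ?_) i <;> simp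
  map_smul' r x := by
    ext i
    refine Fin.lastCases ?_ (fun i => ?_) i <;> simp

theorem incl_injective (N : ℕ) : Function.Injective (incl N) := by
  intro x y h
  ext i
  have h1 := congrArg (fun w : Eu (N + 1) => w i.castSucc) h
  simpa [incl] using h1

theorem FlatImm.incl {g : Eu m → Eu N} (h : FlatImm g (Ω : Set (Eu m))) :
    FlatImm (fun z => Glue.incl N (g z)) (Ω : Set (Eu m)) := by
  have hc : ContDiff ℝ ∞ (fun x => (LinearMap.toContinuousLinearMap (Glue.incl N)) x) :=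
    (LinearMap.toContinuousLinearMap (Glue.incl N)).contDiff
  refine ⟨hc.comp_contDiffOn h.smooth, fun z hz => ?_⟩
  have h1 : DifferentiableAt ℝ g z :=
    ((h.smooth z hz).contDiffAt (Ω.isOpen.mem_nhds hz)).differentiableAt (by norm_num)
  have h2 := ((LinearMap.toContinuousLinearMap (Glue.incl N)).hasFDerivAt (x := g z)).comp z
    h1.hasFDerivAt
  have h3 : fderiv ℝ (fun z => Glue.incl N (g z)) z
      = (LinearMap.toContinuousLinearMap (Glue.incl N)).comp (fderiv ℝ g z) := h2.fderiv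
  rw [h3]
  exact (incl_injective N).comp (h.inj z hz)

end flat

section quo

variable {m N : ℕ} {G : Type} [Group G] {Ω : TopologicalSpace.Opens (Eu m)} [MulAction G Ω]
  [ProperlyDiscontinuousSMul G Ω] [ContinuousConstSMul G Ω] [IsCancelSMul G Ω]

/-- THE LOWER BOUND for the quotient. -/
theorem minCurv_lower (a : AffAct m G Ω) (K : Set (Eu m)) (hK : IsCompact K) (hKΩ : K ⊆ Ω)
    (hcov : ∀ x : Ω, ∃ γ : G, ((γ • x : Ω) : Eu m) ∈ K)
    (τ : G) (hτ : LinearMap.det ((a.A τ : Eu m →L[ℝ] Eu m) : Eu m →ₗ[ℝ] Eu m) < 0)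
    {n : ℕ} (hn : 0 < n) (ι : Eu (n + 1) → Eu m) (hι : ContinuousOn ι {y | y ≠ 0})
    (hιΩ : ∀ y, y ≠ 0 → ι y ∈ Ω) (hιodd : ∀ y, y ≠ 0 → ι (-y) = a.A τ (ι y) + a.c τ) :
    ENNReal.ofReal ((n : ℝ) / (3 * √3)) ≤ minCurv m (Quo G Ω) (m + 1) := by
  refine le_iInf fun f => le_iInf fun hf => le_iInf fun hball => ?_
  by_cases htop : curv m f = ⊤
  · rw [htop]
    exact le_top
  obtain ⟨c, hc⟩ : ∃ c : ℝ≥0, curv m f = c := ⟨(curv m f).toNNReal, (ENNReal.coe_toNNReal htop).symm⟩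
  have h0 : curv m f = ENNReal.ofReal (c : ℝ) := by rw [hc, ENNReal.ofReal_coe_nnreal]
  have h1 := curvLE_lift a f hf (c := (c : ℝ)) c.2 h0.le
  have h2 := lower_bound a K hK hKΩ hcov τ hτ hn ι hι hιΩ hιodd (lift f) ((isImm_iff a f).1 hf)
    (fun γ x => lift_smul f γ x)
    (fun z hz => by rw [lift_coe f ⟨z, hz⟩]; exact hball _) c.2 h1
  rw [h0]
  apply ENNReal.ofReal_le_ofReal
  have h3 : (0 : ℝ) < √3 := by positivity
  have h33 : √3 ^ 2 = (3 : ℝ) := Real.sq_sqrt (by norm_num)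
  rw [div_le_iff₀ (by positivity)]
  have h4 : (n : ℝ) ^ 2 ≤ ((c : ℝ) * (3 * √3)) ^ 2 := by
    calc (n : ℝ) ^ 2 ≤ 27 * (c : ℝ) ^ 2 := h2
      _ = ((c : ℝ) * (3 * √3)) ^ 2 := by rw [mul_pow, mul_pow, h33]; ring
  exact le_of_sq_le_sq h4 (by positivity)

/-- An invariant immersion of `Ω` descends, after scaling into the unit ball. -/
theorem exists_imm (a : AffAct m G Ω) (F : Eu m → Eu N) (hF : FlatImm F (Ω : Set (Eu m)))
    (hinv : ∀ (γ : G) (x : Ω), F ((γ • x : Ω) : Eu m) = F (x : Eu m)) {R : ℝ} (hR : 0 < R)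
    (hball : ∀ z ∈ Ω, ‖F z‖ ≤ R) :
    ∃ f : Quo G Ω → Eu N, IsImm m f ∧ (∀ x, ‖f x‖ ≤ 1) ∧ ∀ z ∈ Ω, lift f z = R⁻¹ • F z := by
  obtain ⟨f, hf⟩ := exists_desc (G := G) (Ω := Ω) (fun z => R⁻¹ • F z) (fun γ x => by
    simp only [hinv])
  refine ⟨f, ?_, ?_, hf⟩
  · rw [isImm_iff a]
    exact FlatImm.congr (FlatImm.smul hF (inv_ne_zero hR.ne')) hf
  · intro x
    obtain ⟨z, rfl⟩ := pr_surjective (G := G) x
    rw [← lift_coe f z, hf z z.2, norm_smul, Real.norm_eq_abs, abs_of_pos (inv_pos.2 hR),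
      inv_mul_le_iff₀ hR, mul_one]
    exact hball z z.2

theorem minCurv_upper (a : AffAct m G Ω) (F : Eu m → Eu N) (hF : FlatImm F (Ω : Set (Eu m)))
    (hinv : ∀ (γ : G) (x : Ω), F ((γ • x : Ω) : Eu m) = F (x : Eu m)) {R : ℝ} (hR : 0 < R)
    (hball : ∀ z ∈ Ω, ‖F z‖ ≤ R) {c : ℝ} (hc : CurvLE F (Ω : Set (Eu m)) c) :
    minCurv m (Quo G Ω) N ≤ ENNReal.ofReal (R * c) := by
  obtain ⟨f, h1, h2, h3⟩ := exists_imm a F hF hinv hR hball
  refine (minCurv_le f h1 h2).trans ?_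
  exact curv_le a f h1 (CurvLE.congr (CurvLE.smul hF hc hR) h3)

omit [ProperlyDiscontinuousSMul G Ω] [ContinuousConstSMul G Ω] [IsCancelSMul G Ω] in
theorem exists_bound_invariant (K : Set (Eu m)) (hK : IsCompact K) (hKΩ : K ⊆ Ω)
    (hcov : ∀ x : Ω, ∃ γ : G, ((γ • x : Ω) : Eu m) ∈ K)
    (F : Eu m → Eu N) (hF : ContinuousOn F (Ω : Set (Eu m)))
    (hinv : ∀ (γ : G) (x : Ω), F ((γ • x : Ω) : Eu m) = F (x : Eu m)) :
    ∃ R : ℝ, 0 < R ∧ ∀ z ∈ Ω, ‖F z‖ ≤ R := by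
  obtain ⟨C, hC⟩ := hK.exists_bound_of_continuousOn (f := F) (hF.mono hKΩ)
  refine ⟨max C 1, by positivity, fun z hz => ?_⟩
  obtain ⟨γ, hγ⟩ := hcov ⟨z, hz⟩
  have h1 := hC _ hγ
  rw [hinv] at h1
  exact h1.trans (le_max_left _ _)

theorem minCurv_lt_top (a : AffAct m G Ω) (K : Set (Eu m)) (hK : IsCompact K) (hKΩ : K ⊆ Ω)
    (hcov : ∀ x : Ω, ∃ γ : G, ((γ • x : Ω) : Eu m) ∈ K)
    (F : Eu m → Eu N) (hF : FlatImm F (Ω : Set (Eu m)))
    (hinv : ∀ (γ : G) (x : Ω), F ((γ • x : Ω) : Eu m) = F (x : Eu m)) :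
    (∃ f : Quo G Ω → Eu N, IsImm m f) ∧ minCurv m (Quo G Ω) N < ⊤ := by
  obtain ⟨R, hR, hball⟩ := exists_bound_invariant K hK hKΩ hcov F hF.smooth.continuousOn hinv
  obtain ⟨f, h1, h2, h3⟩ := exists_imm a F hF hinv hR hball
  refine ⟨⟨f, h1⟩, ?_⟩
  refine lt_of_le_of_lt (minCurv_le f h1 h2) ?_
  exact curv_lt_top a f h1 K hK hKΩ hcov

/-- Immersions in all higher dimensions. -/
theorem imm_all (a : AffAct m G Ω) (K : Set (Eu m)) (hK : IsCompact K) (hKΩ : K ⊆ Ω)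
    (hcov : ∀ x : Ω, ∃ γ : G, ((γ • x : Ω) : Eu m) ∈ K)
    (F : Eu m → Eu N) (hF : FlatImm F (Ω : Set (Eu m)))
    (hinv : ∀ (γ : G) (x : Ω), F ((γ • x : Ω) : Eu m) = F (x : Eu m)) (k : ℕ) :
    (∃ f : Quo G Ω → Eu (N + k), IsImm m f) ∧ minCurv m (Quo G Ω) (N + k) < ⊤ := by
  have h : ∃ F' : Eu m → Eu (N + k), FlatImm F' (Ω : Set (Eu m)) ∧
      ∀ (γ : G) (x : Ω), F' ((γ • x : Ω) : Eu m) = F' (x : Eu m) := by
    induction k with
    | zero => exact ⟨F, hF, hinv⟩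
    | succ k ih =>
      obtain ⟨F', h1, h2⟩ := ih
      exact ⟨fun z => incl (N + k) (F' z), FlatImm.incl h1, fun γ x => by simp only [h2]⟩
  obtain ⟨F', h1, h2⟩ := h
  exact minCurv_lt_top a K hK hKΩ hcov F' h1 h2

end quo

section arith

/-- Three consecutive ratios. -/
theorem exists_ratio {x0 x1 x2 x3 C : ℝ≥0∞} (h : C ^ 3 * x3 < x0)
    (h1 : x1 ≠ 0) (h1' : x1 ≠ ⊤) (h2 : x2 ≠ 0) (h2' : x2 ≠ ⊤) (h3 : x3 ≠ 0) (h3' : x3 ≠ ⊤) :
    C < x0 / x1 ∨ C < x1 / x2 ∨ C < x2 / x3 := by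
  by_contra hcon
  push Not at hcon
  obtain ⟨a1, a2, a3⟩ := hcon
  rw [ENNReal.div_le_iff h1 h1'] at a1
  rw [ENNReal.div_le_iff h2 h2'] at a2
  rw [ENNReal.div_le_iff h3 h3'] at a3
  have h4 : x0 ≤ C ^ 3 * x3 := by
    calc x0 ≤ C * x1 := a1
      _ ≤ C * (C * x2) := by gcongr
      _ ≤ C * (C * (C * x3)) := by gcongr
      _ = C ^ 3 * x3 := by ring
  exact absurd h (not_lt.2 h4)

/-- Choice of `n`. -/
theorem exists_large (C : ℝ≥0) (c : ℝ) : ∃ n : ℕ, 0 < n ∧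
    (C : ℝ≥0∞) ^ 3 * ENNReal.ofReal (c * √n) < ENNReal.ofReal ((n : ℝ) / (3 * √3)) := by
  obtain ⟨k, hk⟩ := exists_nat_gt ((C : ℝ) ^ 3 * |c| * (3 * √3))
  refine ⟨(k + 1) ^ 2, by positivity, ?_⟩
  have h3 : (0 : ℝ) < √3 := by positivity
  have hs : √(((k + 1) ^ 2 : ℕ) : ℝ) = (k : ℝ) + 1 := by
    push_cast
    exact Real.sqrt_sq (by positivity)
  rw [hs]
  have h1 : ENNReal.ofReal (c * ((k : ℝ) + 1)) ≤ ENNReal.ofReal (|c| * ((k : ℝ) + 1)) := by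
    apply ENNReal.ofReal_le_ofReal
    gcongr
    exact le_abs_self c
  have h2 : (C : ℝ≥0∞) ^ 3 = ENNReal.ofReal ((C : ℝ) ^ 3) := by
    rw [ENNReal.ofReal_pow (NNReal.coe_nonneg C), ENNReal.ofReal_coe_nnreal]
  calc (C : ℝ≥0∞) ^ 3 * ENNReal.ofReal (c * ((k : ℝ) + 1))
      ≤ (C : ℝ≥0∞) ^ 3 * ENNReal.ofReal (|c| * ((k : ℝ) + 1)) := by gcongr
    _ = ENNReal.ofReal ((C : ℝ) ^ 3 * (|c| * ((k : ℝ) + 1))) := by
        rw [h2, ← ENNReal.ofReal_mul (by positivity)]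
    _ < _ := by
        rw [ENNReal.ofReal_lt_ofReal_iff (by positivity)]
        push_cast
        rw [lt_div_iff₀ (by positivity)]
        have h4 : (C : ℝ) ^ 3 * |c| * (3 * √3) < (k : ℝ) + 1 := by linarith
        have h5 : (0 : ℝ) < (k : ℝ) + 1 := by positivity
        nlinarith

end arith

section final

/-- The concrete input of the disproof for the parameter `n`. -/
structure Data (n : ℕ) (c : ℝ) where
  m : ℕ
  G : Type
  instG : Group G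
  Ω : TopologicalSpace.Opens (Eu m)
  instA : MulAction G Ω
  instP : ProperlyDiscontinuousSMul G Ω
  instC : ContinuousConstSMul G Ω
  instS : IsCancelSMul G Ω
  a : AffAct m G Ω
  K : Set (Eu m)
  hK : IsCompact K
  hKΩ : K ⊆ Ω
  hconn : IsConnected (Ω : Set (Eu m))
  hcov : ∀ x : Ω, ∃ γ : G, ((γ • x : Ω) : Eu m) ∈ K
  τ : G
  hτ : LinearMap.det ((a.A τ : Eu m →L[ℝ] Eu m) : Eu m →ₗ[ℝ] Eu m) < 0
  ι : Eu (n + 1) → Eu m
  hι : ContinuousOn ι {y | y ≠ 0}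
  hιΩ : ∀ y, y ≠ 0 → ι y ∈ Ω
  hιodd : ∀ y, y ≠ 0 → ι (-y) = a.A τ (ι y) + a.c τ
  F1 : Eu m → Eu (m + 1)
  hF1 : FlatImm F1 (Ω : Set (Eu m))
  inv1 : ∀ (γ : G) (x : Ω), F1 ((γ • x : Ω) : Eu m) = F1 (x : Eu m)
  F4 : Eu m → Eu (m + 4)
  hF4 : FlatImm F4 (Ω : Set (Eu m))
  inv4 : ∀ (γ : G) (x : Ω), F4 ((γ • x : Ω) : Eu m) = F4 (x : Eu m)
  R : ℝ
  R0 : 0 < R
  ball4 : ∀ z ∈ Ω, ‖F4 z‖ ≤ R
  c4 : ℝ
  curv4 : CurvLE F4 (Ω : Set (Eu m)) c4
  bound : R * c4 ≤ c * √n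

/-- What is known about the closed manifold of parameter `n`. -/
theorem Data.exists_manifold {n : ℕ} {c : ℝ} (hn : 0 < n) (D : Data n c) :
    ∃ (m : ℕ) (X : Type) (_ : TopologicalSpace X) (_ : ChartedSpace (Eu m) X),
      0 < m ∧ IsManifold (𝓡 m) ∞ X ∧ CompactSpace X ∧ T2Space X ∧ SecondCountableTopology X ∧
      ConnectedSpace X ∧ (∀ k : ℕ, ∃ f : X → Eu (m + 1 + k), IsImm m f) ∧
      (∀ k : ℕ, minCurv m X (m + 1 + k) < ⊤) ∧ (∀ N : ℕ, 1 ≤ minCurv m X N) ∧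
      ENNReal.ofReal ((n : ℝ) / (3 * √3)) ≤ minCurv m X (m + 1) ∧
      minCurv m X (m + 4) ≤ ENNReal.ofReal (c * √n) := by
  obtain ⟨m, G, i1, Ω, i2, i3, i4, i5, a, K, hK, hKΩ, hconn, hcov, τ, hτ, ι, hι, hιΩ, hιodd, F1, hF1,
    inv1, F4, hF4, inv4, R, R0, ball4, c4, curv4, bound⟩ := D
  have y0 : (EuclideanSpace.single (0 : Fin (n + 1)) (1 : ℝ) : Eu (n + 1)) ≠ 0 := by
    intro h
    have h1 := congrArg (fun w : Eu (n + 1) => w 0) h
    simp at h1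
  have hz := hιΩ _ y0
  have hm : 0 < m := by
    rcases Nat.eq_zero_or_pos m with h | h
    · subst h
      exfalso
      have h1 : (a.A τ : Eu 0 →L[ℝ] Eu 0) = ContinuousLinearMap.id ℝ (Eu 0) :=
        Subsingleton.elim _ _
      rw [h1] at hτ
      have h2 : LinearMap.det ((ContinuousLinearMap.id ℝ (Eu 0)) : Eu 0 →ₗ[ℝ] Eu 0) = 1 := by
        rw [ContinuousLinearMap.coe_id, LinearMap.det_id]
      rw [h2] at hτ
      linarith
    · exact h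
  have hX : IsManifold (𝓡 m) ∞ (Quo G Ω) := isManifold_quo a
  have hC : CompactSpace (Quo G Ω) := compact_quo K hK hKΩ hcov
  have hΩc : ConnectedSpace Ω := isConnected_iff_connectedSpace.1 hconn
  have hne : ConnectedSpace (Quo G Ω) :=
    pr_surjective.connectedSpace (continuous_pr (G := G) (Ω := Ω))
  refine ⟨m, Quo G Ω, inferInstance, inferInstance, hm, hX, hC, inferInstance, inferInstance, hne,
    fun k => (imm_all a K hK hKΩ hcov F1 hF1 inv1 k).1,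
    fun k => (imm_all a K hK hKΩ hcov F1 hF1 inv1 k).2,
    fun N => one_le_minCurv hm (Quo G Ω) N,
    minCurv_lower a K hK hKΩ hcov τ hτ hn ι hι hιΩ hιodd, ?_⟩
  exact (minCurv_upper a F4 hF4 inv4 R0 ball4 curv4).trans (ENNReal.ofReal_le_ofReal bound)

/-- The negated form of the problem, from the concrete data. -/
theorem final (c : ℝ) (D : ∀ n : ℕ, 0 < n → Nonempty (Data n c)) (C : ℝ≥0) :
    ∃ (m : ℕ) (X : Type) (_ : TopologicalSpace X) (_ : ChartedSpace (Eu m) X) (M : ℕ),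
      0 < m ∧ IsManifold (𝓡 m) ∞ X ∧ CompactSpace X ∧ T2Space X ∧ SecondCountableTopology X ∧
      ConnectedSpace X ∧ (∃ f : X → Eu M, IsImm m f) ∧ minCurv m X M < ⊤ ∧
      1 ≤ minCurv m X (M + 1) ∧ minCurv m X (M + 1) < ⊤ ∧ (C : ℝ≥0∞) < rho m X M := by
  obtain ⟨n, hn, hlt⟩ := exists_large C c
  obtain ⟨D⟩ := D n hn
  obtain ⟨m, X, i1, i2, hm, h1, h2, h3, h4, h5, himm, hfin, hone, hlow, hup⟩ :=
    D.exists_manifold hn
  have hne : ∀ N, minCurv m X N ≠ 0 := fun N h => by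
    have := hone N
    rw [h] at this
    exact absurd this (by simp)
  have hkey : (C : ℝ≥0∞) ^ 3 * minCurv m X (m + 4) < minCurv m X (m + 1) :=
    calc (C : ℝ≥0∞) ^ 3 * minCurv m X (m + 4) ≤ (C : ℝ≥0∞) ^ 3 * ENNReal.ofReal (c * √n) := by
          gcongr
      _ < ENNReal.ofReal ((n : ℝ) / (3 * √3)) := hlt
      _ ≤ _ := hlow
  have hr := exists_ratio hkey (hne (m + 2)) (hfin 1).ne (hne (m + 3)) (hfin 2).ne (hne (m + 4))
    (hfin 3).ne
  rcases hr with h | h | h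
  · exact ⟨m, X, i1, i2, m + 1, hm, h1, h2, h3, h4, h5, himm 0, hfin 0, hone _, hfin 1, h⟩
  · exact ⟨m, X, i1, i2, m + 2, hm, h1, h2, h3, h4, h5, himm 1, hfin 1, hone _, hfin 2, h⟩
  · exact ⟨m, X, i1, i2, m + 3, hm, h1, h2, h3, h4, h5, himm 2, hfin 2, hone _, hfin 3, h⟩

end final

end Pool.Agent.helper8.MC.Glue
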